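import Mathlib
import Pool.Agent.MultProd.Table

/-!
# Two-class partitions and monochromatic products with large factors

For every `f` tending to infinity there is a partition of the positive integers into two
(nonempty) classes such that the set `D_f` of monochromatic products `n = a * a'` with
`min a a' > f n` has lower asymptotic density `0`.

Idea: choose a very sparse sequence `M_k = N_k ^ 2` and split by size, the first class being
the union of the intervals `(M_(k-1), N_k]` and the second one the union of `(N_k, M_k]`.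
A monochromatic product in `(M_k / k, M_k]` with both factors larger than `f n > M_(k-1)` has both
factors at most `N_k`, so it lies in the `N_k` by `N_k` multiplication table, which is small.
-/

namespace Pool.Agent.Results.MP_c34da8_nt.TwoClasses

open Filter Topology Pool.Agent.MultProd

/-- `D_f` of the partition `{A₁, A₂}`: the integers `n = a * a'` with `a, a'` in a common class
and `min a a' > f n`. -/
def monoProducts (f : ℕ → ℝ) (A₁ A₂ : Set ℕ) : Set ℕ :=
  {n | ∃ a a' : ℕ, n = a * a' ∧ ((a ∈ A₁ ∧ a' ∈ A₁) ∨ (a ∈ A₂ ∧ a' ∈ A₂)) ∧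
    f n < ((min a a' : ℕ) : ℝ)}

/-- Lower asymptotic density `liminf_{M → ∞} |D ∩ {1, …, M}| / M`. -/
noncomputable def lowerDensity (D : Set ℕ) : ℝ :=
  liminf (fun M : ℕ => ((D ∩ Set.Icc 1 M).ncard : ℝ) / (M : ℝ)) atTop

lemma exists_next (f : ℕ → ℝ) (hf : Tendsto f atTop atTop) (m k : ℕ) :
    ∃ N : ℕ, m < N ∧ 1 ≤ N ∧ k ≤ N ∧ (∀ n : ℕ, N ^ 2 ≤ (k + 1) * n → (m : ℝ) < f n) ∧
      ((table N).card : ℝ) ≤ (1 / ((k : ℝ) + 1)) * (N : ℝ) ^ 2 := by
  obtain ⟨Q, hQ, hQN⟩ := table_small (1 / ((k : ℝ) + 1)) (by positivity)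
  obtain ⟨x, hx⟩ := (tendsto_atTop.1 hf ((m : ℝ) + 1)).exists_forall_of_atTop
  refine ⟨Q * (m + k + 1 + (k + 1) * x), ?_, ?_, ?_, ?_, hQN _ (Dvd.intro _ rfl)⟩
  · nlinarith [Nat.zero_le ((k + 1) * x)]
  · nlinarith [Nat.zero_le ((k + 1) * x)]
  · nlinarith [Nat.zero_le ((k + 1) * x)]
  · intro n hn
    have h1 : (k + 1) * x ≤ (k + 1) * n := by
      refine le_trans ?_ hn
      have h2 : (k + 1) * x ≤ Q * (m + k + 1 + (k + 1) * x) := by nlinarith [Nat.zero_le ((k + 1) * x)]
      have h3 : 1 ≤ Q * (m + k + 1 + (k + 1) * x) := by nlinarith [Nat.zero_le ((k + 1) * x)]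
      nlinarith
    have h4 : x ≤ n := Nat.le_of_mul_le_mul_left h1 (Nat.succ_pos k)
    have := hx n h4
    linarith

/-- For every `f → ∞` there is a partition of the positive integers into two classes whose set of
monochromatic products with both factors larger than `f n` has lower asymptotic density `0`. -/
theorem result (f : ℕ → ℝ) (hf : Tendsto f atTop atTop) :
    ∃ A₁ A₂ : Set ℕ, A₁.Nonempty ∧ A₂.Nonempty ∧ Disjoint A₁ A₂ ∧ A₁ ∪ A₂ = {n : ℕ | 1 ≤ n} ∧
      lowerDensity (monoProducts f A₁ A₂) = 0 := by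
  classical
  -- the sequence `N`
  let N : ℕ → ℕ := fun k => Nat.rec 1 (fun k Nk => (exists_next f hf (Nk ^ 2) k).choose) k
  have hN0 : N 0 = 1 := rfl
  have hN : ∀ k, (N k) ^ 2 < N (k + 1) ∧ 1 ≤ N (k + 1) ∧ k ≤ N (k + 1) ∧
      (∀ n : ℕ, (N (k + 1)) ^ 2 ≤ (k + 1) * n → (((N k) ^ 2 : ℕ) : ℝ) < f n) ∧
      ((table (N (k + 1))).card : ℝ) ≤ (1 / ((k : ℝ) + 1)) * ((N (k + 1) : ℕ) : ℝ) ^ 2 :=
    fun k => (exists_next f hf ((N k) ^ 2) k).choose_spec
  have hpos : ∀ k, 1 ≤ N k := by
    intro k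
    cases k with
    | zero => exact le_of_eq hN0.symm
    | succ k => exact (hN k).2.1
  have hmono : Monotone N := by
    refine monotone_nat_of_le_succ fun k => ?_
    have h1 := (hN k).1
    have h2 := hpos k
    nlinarith
  set B : Set ℕ := {n | ∃ k, N (k + 1) < n ∧ n ≤ (N (k + 1)) ^ 2} with hB
  set A : Set ℕ := {n | 1 ≤ n ∧ n ∉ B} with hA
  have hN1 : 2 ≤ N 1 := by
    have := (hN 0).1
    rw [hN0, one_pow] at this
    exact this
  refine ⟨A, B, ⟨1, le_refl 1, ?_⟩, ⟨N 1 + 1, 0, ?_, ?_⟩, ?_, ?_, ?_⟩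
  · rintro ⟨k, hk, -⟩
    exact absurd hk (not_lt.2 (hpos (k + 1)))
  · simp
  · simp only [zero_add]
    nlinarith
  · rw [Set.disjoint_left]
    rintro n ⟨-, h⟩ h'
    exact h h'
  · ext n
    simp only [Set.mem_union, Set.mem_ofPred_eq]
    constructor
    · rintro (h | h)
      · exact h.1
      · obtain ⟨k, hk, -⟩ := h
        exact (hpos (k + 1)).trans hk.le
    · intro h
      by_cases hn : n ∈ B
      · exact Or.inr hn
      · exact Or.inl ⟨h, hn⟩
  -- the key bound
  have key : ∀ k : ℕ, ((monoProducts f A B ∩ Set.Icc 1 ((N (k + 1)) ^ 2)).ncard : ℝ) ≤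
      2 / ((k : ℝ) + 1) * (((N (k + 1)) ^ 2 : ℕ) : ℝ) := by
    intro k
    obtain ⟨h1, h2, -, h4, h5⟩ := hN k
    set R := N (k + 1) with hR
    have hsub : monoProducts f A B ∩ Set.Icc 1 (R ^ 2) ⊆
        (((Finset.Icc 1 (R ^ 2 / (k + 1))) ∪ table R : Finset ℕ) : Set ℕ) := by
      rintro n ⟨⟨a, a', hn, hcl, hmin⟩, hn1, hn2⟩
      rw [Finset.coe_union]
      by_cases hsmall : n ≤ R ^ 2 / (k + 1)
      · left
        exact Finset.mem_coe.2 (Finset.mem_Icc.2 ⟨hn1, hsmall⟩)
      right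
      push Not at hsmall
      have hbig : R ^ 2 ≤ (k + 1) * n := by
        have := (Nat.div_lt_iff_lt_mul (Nat.succ_pos k)).1 hsmall
        rw [mul_comm]; exact this.le
      have hfn := h4 n hbig
      have hlt : (N k) ^ 2 < min a a' := by
        have := hfn.trans hmin
        exact_mod_cast this
      have ha1 : (N k) ^ 2 < a := lt_of_lt_of_le hlt (min_le_left _ _)
      have ha1' : (N k) ^ 2 < a' := lt_of_lt_of_le hlt (min_le_right _ _)
      have hapos : 0 < a := lt_of_le_of_lt (Nat.zero_le _) ha1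
      have hapos' : 0 < a' := lt_of_le_of_lt (Nat.zero_le _) ha1'
      have hale : a ≤ R ^ 2 := by
        refine le_trans ?_ hn2
        rw [hn]; exact Nat.le_mul_of_pos_right a hapos'
      have hale' : a' ≤ R ^ 2 := by
        refine le_trans ?_ hn2
        rw [hn]; exact Nat.le_mul_of_pos_left a' hapos
      -- elements of `B` in the range are larger than `R`
      have hBR : ∀ b, (N k) ^ 2 < b → b ∈ B → R < b := by
        rintro b hb ⟨j, hj1, hj2⟩
        by_cases hjk : j < k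
        · exfalso
          have : N (j + 1) ≤ N k := hmono hjk
          have : (N (j + 1)) ^ 2 ≤ (N k) ^ 2 := Nat.pow_le_pow_left this 2
          omega
        · push Not at hjk
          exact lt_of_le_of_lt (hmono (Nat.succ_le_succ hjk)) hj1
      rcases hcl with ⟨hcA, hcA'⟩ | ⟨hcB, hcB'⟩
      · have haR : a ≤ R := by
          by_contra hcon
          push Not at hcon
          exact hcA.2 ⟨k, hcon, hale⟩
        have haR' : a' ≤ R := by
          by_contra hcon
          push Not at hcon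
          exact hcA'.2 ⟨k, hcon, hale'⟩
        refine Finset.mem_coe.2 ?_
        unfold table
        rw [Finset.mem_image]
        exact ⟨(a, a'), Finset.mem_product.2 ⟨Finset.mem_Icc.2 ⟨hapos, haR⟩,
          Finset.mem_Icc.2 ⟨hapos', haR'⟩⟩, hn.symm⟩
      · exfalso
        have := hBR a ha1 hcB
        have := hBR a' ha1' hcB'
        have hlt2 : R ^ 2 < a * a' := by nlinarith
        rw [← hn] at hlt2
        exact absurd hn2 (not_le.2 hlt2)
    have hcard := Set.ncard_le_ncard hsub (Finset.finite_toSet _)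
    rw [Set.ncard_coe_finset] at hcard
    have hcard2 := hcard.trans (Finset.card_union_le _ _)
    rw [Nat.card_Icc, Nat.add_sub_cancel] at hcard2
    have hcard3 : ((monoProducts f A B ∩ Set.Icc 1 (R ^ 2)).ncard : ℝ) ≤
        ((R ^ 2 / (k + 1) : ℕ) : ℝ) + ((table R).card : ℝ) := by exact_mod_cast hcard2
    have hdiv : ((R ^ 2 / (k + 1) : ℕ) : ℝ) ≤ (R : ℝ) ^ 2 / ((k : ℝ) + 1) := by
      have := @Nat.cast_div_le ℝ _ _ _ (R ^ 2) (k + 1)
      push_cast at this
      exact this
    push_cast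
    calc ((monoProducts f A B ∩ Set.Icc 1 (R ^ 2)).ncard : ℝ)
        ≤ ((R ^ 2 / (k + 1) : ℕ) : ℝ) + ((table R).card : ℝ) := hcard3
      _ ≤ (R : ℝ) ^ 2 / ((k : ℝ) + 1) + (1 / ((k : ℝ) + 1)) * (R : ℝ) ^ 2 := add_le_add hdiv h5
      _ = 2 / ((k : ℝ) + 1) * (R : ℝ) ^ 2 := by ring
  -- conclusion
  set u : ℕ → ℝ := fun M : ℕ => ((monoProducts f A B ∩ Set.Icc 1 M).ncard : ℝ) / (M : ℝ) with hu
  have hu0 : ∀ M, 0 ≤ u M := fun M => by positivity
  have hle : ∀ M, u M ≤ 1 := by
    intro M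
    rcases Nat.eq_zero_or_pos M with h | h
    · subst h; simp [hu]
    · have h1 : (monoProducts f A B ∩ Set.Icc 1 M).ncard ≤ M := by
        have := Set.ncard_le_ncard (Set.inter_subset_right : monoProducts f A B ∩ Set.Icc 1 M ⊆ Set.Icc 1 M)
          (Set.finite_Icc 1 M)
        rw [show (Set.Icc 1 M : Set ℕ) = ((Finset.Icc 1 M : Finset ℕ) : Set ℕ) by simp,
          Set.ncard_coe_finset, Nat.card_Icc, Nat.add_sub_cancel] at this
        simpa using this
      simp only [hu]
      rw [div_le_one (by exact_mod_cast h)]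
      exact_mod_cast h1
  have hbdd : IsBoundedUnder (· ≥ ·) atTop u := ⟨0, by simp [hu0]⟩
  have hbdd' : IsBoundedUnder (· ≤ ·) atTop u := ⟨1, by simp [hle]⟩
  have hgrow : Tendsto (fun k => (N (k + 1)) ^ 2) atTop atTop := by
    refine tendsto_atTop_mono (fun k => ?_) tendsto_id
    have h3 := (hN k).2.2.1
    have h2 := (hN k).2.1
    simp only [id]
    nlinarith
  show liminf u atTop = 0
  refine le_antisymm ?_ ?_
  · refine le_of_forall_pos_le_add fun ε hε => ?_
    rw [zero_add]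
    refine liminf_le_of_frequently_le ?_ hbdd
    rw [frequently_atTop]
    intro b
    obtain ⟨k₀, hk₀⟩ := exists_nat_gt (2 / ε)
    obtain ⟨k₁, hk₁⟩ := (hgrow.eventually_ge_atTop b).exists_forall_of_atTop
    set k := max k₀ k₁ with hk
    refine ⟨(N (k + 1)) ^ 2, hk₁ k (le_max_right _ _), ?_⟩
    have hRpos : (0 : ℝ) < (((N (k + 1)) ^ 2 : ℕ) : ℝ) := by
      exact_mod_cast Nat.pow_pos (hpos (k + 1))
    simp only [hu]
    rw [div_le_iff₀ hRpos]
    refine (key k).trans (mul_le_mul_of_nonneg_right ?_ hRpos.le)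
    rw [div_le_iff₀ (by positivity)]
    have h6 : 2 / ε < (k : ℝ) + 1 := by
      have : (k₀ : ℝ) ≤ (k : ℝ) := by exact_mod_cast le_max_left k₀ k₁
      linarith
    rw [div_lt_iff₀ hε] at h6
    linarith
  · refine le_liminf_of_le (hbdd'.isCoboundedUnder_ge) ?_
    exact Eventually.of_forall hu0

end Pool.Agent.Results.MP_c34da8_nt.TwoClasses
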